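import Pool.Agent.helper45.BR.Spec

/-!
# br:DSB: a disc around a point of the Multibrot set without hyperbolic parameters
-/

set_option autoImplicit false

open Complex Metric Set Filter Topology MeasureTheory MPS Pool.Agent.helper98.ILF
  Pool.Agent.helper16.Multibrot

noncomputable section

namespace BR

/-- the critical orbit depends holomorphically on the parameter. -/
lemma DSB_diff (n : ℕ) (k : ℕ) : Differentiable ℂ (fun c' : ℂ => (fc n c')^[k] 0) := by
  induction k with
  | zero => simp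
  | succ k ih =>
    have : (fun c' : ℂ => (fc n c')^[k + 1] 0) = fun c' => ((fc n c')^[k] 0) ^ n + c' := by
      funext c'
      rw [Function.iterate_succ_apply']
      rfl
    rw [this]
    exact (ih.pow n).add differentiable_id

/-- if `0` is periodic then the parameter is hyperbolic. -/
lemma DSB_hyp (n : ℕ) (hn : 2 ≤ n) (k : ℕ) (hk : 0 < k) (c' : ℂ) (h : (fc n c')^[k] 0 = 0) :
    c' ∈ hyperbolic n := by
  refine ⟨0, k, hk, h, ?_⟩
  obtain ⟨j, rfl⟩ : ∃ j, k = j + 1 := ⟨k - 1, by omega⟩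
  have hd0 : HasDerivAt (fun w : ℂ => w ^ n + c') 0 0 := by
    have h1 := (hasDerivAt_pow n (0 : ℂ)).add_const c'
    have : ((n : ℂ) * 0 ^ (n - 1)) = 0 := by
      rw [zero_pow (by omega)]; simp
    rw [this] at h1
    exact h1
  have hdj : Differentiable ℂ ((fun w : ℂ => w ^ n + c')^[j]) := by
    have hf : Differentiable ℂ (fun w : ℂ => w ^ n + c') :=
      (differentiable_id.pow n).add_const c'
    exact hf.iterate j
  have hcomp : HasDerivAt ((fun w : ℂ => w ^ n + c')^[j] ∘ (fun w : ℂ => w ^ n + c'))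
      (deriv ((fun w : ℂ => w ^ n + c')^[j]) ((fun w : ℂ => w ^ n + c') 0) * 0) 0 :=
    HasDerivAt.comp (0 : ℂ) (hdj _).hasDerivAt hd0
  have : (fun w : ℂ => w ^ n + c')^[j + 1] =
      (fun w : ℂ => w ^ n + c')^[j] ∘ (fun w : ℂ => w ^ n + c') := Function.iterate_succ _ _
  rw [this, hcomp.deriv]
  simp

/-- one step. -/
lemma DSB_step (hSCH : SCH_stmt) (hMBB : MBB_stmt) (n : ℕ) (hn : 2 ≤ n) (c₁ : ℂ) (ρ : ℝ)
    (hρ : 0 < ρ) (hc₁ : c₁ ∈ multibrot n) (hD : ∀ c' ∈ ball c₁ ρ, c' ∉ hyperbolic n) :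
    ball c₁ (ρ / 2) ⊆ multibrot n := by
  have hz : ∀ c' ∈ ball c₁ ρ, ∀ k, 0 < k → (fc n c')^[k] 0 ≠ 0 := fun c' hc' k hk h =>
    hD c' hc' (DSB_hyp n hn k hk c' h)
  have h0 : ∀ c' ∈ ball c₁ ρ, c' ≠ 0 := by
    intro c' hc' h
    apply hz c' hc' 1 one_pos
    simp [fc, h]
    omega
  obtain ⟨M', hM'⟩ := hSCH (max 1 (2 ^ n / ‖c₁‖)) (le_max_left _ _)
  have hb : ∀ k, 0 < k → ∀ x ∈ ball c₁ (ρ / 2), ‖((fc n x)^[k] 0) ^ n / (-x)‖ ≤ M' := by
    intro k hk
    refine hM' (fun c' => ((fc n c')^[k] 0) ^ n / (-c')) c₁ ρ hρ ?_ ?_ ?_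
    · intro c' hc'
      apply DifferentiableAt.differentiableWithinAt
      exact ((DSB_diff n k c').pow n).div differentiableAt_id.neg (neg_ne_zero.2 (h0 c' hc'))
    · intro c' hc'
      refine ⟨div_ne_zero (pow_ne_zero _ (hz c' hc' k hk)) (neg_ne_zero.2 (h0 c' hc')), ?_⟩
      intro h
      rw [div_eq_one_iff_eq (neg_ne_zero.2 (h0 c' hc'))] at h
      apply hz c' hc' (k + 1) (Nat.succ_pos _)
      rw [Function.iterate_succ_apply']
      simp only [fc] at h ⊢
      rw [h]; ring
    · refine le_trans ?_ (le_max_right _ _)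
      rw [norm_div, norm_pow, norm_neg]
      have := ((hMBB n c₁ hn).1 hc₁).2 k
      exact div_le_div_of_nonneg_right (pow_le_pow_left₀ (norm_nonneg _) this n) (norm_nonneg _)
  intro x hx
  have hxρ : x ∈ ball c₁ ρ := ball_subset_ball (by linarith) hx
  have hM0 : 0 ≤ M' := le_trans (norm_nonneg _) (hb 1 one_pos x hx)
  have hx0 : 0 < ‖x‖ := norm_pos_iff.2 (h0 x hxρ)
  refine (hMBB n x hn).2 ⟨(M' + 1) * ‖x‖, ?_⟩
  intro k
  have key : ∀ k, ‖((fc n x)^[k] 0) ^ n‖ ≤ M' * ‖x‖ := by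
    intro k
    rcases Nat.eq_zero_or_pos k with rfl | hk
    · simp only [Function.iterate_zero, id_eq]
      rw [zero_pow (by omega), norm_zero]
      positivity
    · have := hb k hk x hx
      rw [norm_div, norm_neg, div_le_iff₀ hx0] at this
      exact this
  rcases k with _ | k
  · simp only [Function.iterate_zero, id_eq, norm_zero]
    positivity
  · rw [Function.iterate_succ_apply']
    calc ‖fc n x ((fc n x)^[k] 0)‖ ≤ ‖((fc n x)^[k] 0) ^ n‖ + ‖x‖ := norm_add_le _ _
      _ ≤ (M' + 1) * ‖x‖ := by linarith [key k]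

theorem DSB (hSCH : SCH_stmt) (hMBB : MBB_stmt) : DSB_stmt := by
  intro n c r hn hr hc hdis x hx
  rw [mem_ball, dist_eq_norm] at hx
  set ε := r - ‖x - c‖ with hε
  have hεp : 0 < ε := by linarith
  obtain ⟨N, hN⟩ := exists_nat_gt (2 * ‖x - c‖ / ε)
  have hN0 : (0 : ℝ) < N := lt_of_le_of_lt (by positivity) hN
  rw [div_lt_iff₀ hεp] at hN
  have hNc : (N : ℂ) ≠ 0 := by
    intro h
    have : (N : ℝ) = 0 := by exact_mod_cast h
    linarith
  have main : ∀ j : ℕ, j ≤ N → c + (j / N : ℂ) * (x - c) ∈ multibrot n := by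
    intro j
    induction j with
    | zero => intro _; simpa using hc
    | succ j ih =>
      intro hj
      have h1 := ih (by omega)
      refine DSB_step hSCH hMBB n hn _ ε hεp h1 ?_ ?_
      · intro c' hc' hc''
        refine Set.disjoint_left.1 hdis ?_ hc''
        rw [mem_ball, dist_eq_norm] at hc' ⊢
        have h2 : ‖(j / N : ℂ) * (x - c)‖ ≤ ‖x - c‖ := by
          rw [norm_mul]
          have : ‖(j / N : ℂ)‖ ≤ 1 := by
            rw [norm_div, Complex.norm_natCast, Complex.norm_natCast, div_le_one hN0]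
            exact_mod_cast (by omega : j ≤ N)
          nlinarith [norm_nonneg (x - c)]
        calc ‖c' - c‖ = ‖(c' - (c + (j / N : ℂ) * (x - c))) + (j / N : ℂ) * (x - c)‖ := by
              congr 1; ring
          _ ≤ ‖c' - (c + (j / N : ℂ) * (x - c))‖ + ‖(j / N : ℂ) * (x - c)‖ := norm_add_le _ _
          _ < ε + ‖x - c‖ := by linarith
          _ = r := by rw [hε]; ring
      · rw [mem_ball, dist_eq_norm]
        have : c + ((j + 1 : ℕ) / N : ℂ) * (x - c) - (c + (j / N : ℂ) * (x - c)) =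
            (x - c) / N := by
          push_cast
          field_simp
          ring
        rw [this, norm_div, Complex.norm_natCast, div_lt_iff₀ hN0]
        linarith
  have := main N le_rfl
  rwa [div_self hNc, one_mul, add_sub_cancel] at this

end BR
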